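import Mathlib
import Pool.Agent.Helper72.PSpace
import Pool.Agent.Helper72.FrobMain
import Pool.Agent.Helper72.Main5ac764

open AlgebraicGeometry CategoryTheory Pool.Agent.Helper72

universe u

namespace Pool.Agent.Results.MP_5ac764_ag.NotInjective

/-- For every prime `p` and every perfect field `k` of characteristic `p` there is a smooth
projective globally `F`-split variety `X` over `k` such that for all `1 ≤ e < e'` the natural map
`H¹(X, D^(e)) → H¹(X, D^(e'))` is not injective. -/
theorem result (p : ℕ) [Fact p.Prime] (k : Type u) [Field k] [CharP k p] [PerfectField k] :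
    ∃ (X : Scheme.{u}) (f : X ⟶ Spec (.of k)),
      IsIntegral X ∧ Smooth f ∧ IsProjectiveOver f ∧ Frob.IsFSplit X p ∧
      ∀ (e e' : ℕ) (_ : 1 ≤ e) (h : e < e'),
        ¬ Function.Injective
          (Sheaf.H.map (Frob.DSheaf.incl (X := X) (pow_dvd_pow p h.le)) 1) :=
  main_5ac764 p k

end Pool.Agent.Results.MP_5ac764_ag.NotInjective
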